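import Mathlib

open Set Topology TopologicalSpace Filter

namespace Pool.Agent.MP_b0da28_lc

/-- Baire category in covering form, inside an open set. -/
theorem baire_open {Y : Type*} [TopologicalSpace Y] [BaireSpace Y] {ι : Type*} [Countable ι]
    (O : Set Y) (hO : IsOpen O) (hne : O.Nonempty) (C : ι → Set Y) (hC : ∀ i, IsClosed (C i))
    (hcov : O ⊆ ⋃ i, C i) : ∃ i, (interior (C i) ∩ O).Nonempty := by
  let D : Option ι → Set Y := fun i => i.elim Oᶜ C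
  have hD : ∀ i, IsClosed (D i) := by
    intro i
    cases i with
    | none => exact hO.isClosed_compl
    | some i => exact hC i
  have hU : ⋃ i, D i = univ := by
    rw [eq_univ_iff_forall]
    intro y
    by_cases hy : y ∈ O
    · obtain ⟨i, hi⟩ := mem_iUnion.1 (hcov hy)
      exact mem_iUnion.2 ⟨some i, hi⟩
    · exact mem_iUnion.2 ⟨none, hy⟩
  obtain ⟨y, hyO, hy⟩ := (dense_iUnion_interior_of_closed hD hU).inter_open_nonempty O hO hne
  obtain ⟨i, hi⟩ := mem_iUnion.1 hy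
  cases i with
  | none => exact absurd hyO (interior_subset hi)
  | some i => exact ⟨i, y, hi, hyO⟩

/-- The abstract non-reducibility criterion. -/
theorem abstract_criterion {X : Type*} [TopologicalSpace X] [T2Space X] [LocallyConnectedSpace X]
    (E : Setoid X) (g : (ℕ → ℕ) → X) (hgc : Continuous g) (hgo : IsOpenMap g)
    (X0 : Set X) (hX0 : IsOpen X0) (hX0ne : (g ⁻¹' X0).Nonempty)
    (h1 : ∀ x ∈ X0, ∃ N : Set X, IsClosed N ∧ interior N = ∅ ∧ ∀ y ∈ X0, E x y → y ∈ N)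
    (h2 : ∀ C : ℕ → Set (ℕ → ℕ), (∀ n, IsClosed (C n)) →
      (∀ α β, E (g α) (g β) → α ∈ ⋃ n, C n → β ∈ ⋃ n, C n) →
      ∀ O, IsOpen O → O.Nonempty → O ⊆ g ⁻¹' X0 → O ⊆ ⋃ n, C n →
      ∀ V, IsOpen V → V.Nonempty → V ⊆ g ⁻¹' X0 →
      ∃ V' ⊆ V, IsOpen V' ∧ V'.Nonempty ∧ V' ⊆ ⋃ n, C n) :
    ¬ ∃ f : (ℕ → ℕ) → (ℕ → (ℕ → ℕ)), Continuous f ∧
      ∀ α β, E (g α) (g β) ↔ range (f α) = range (f β) := by
  rintro ⟨f, hfc, hf⟩
  have hfn : ∀ n, Continuous fun α => f α n := fun n => (continuous_apply n).comp hfc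
  have hfnk : ∀ n k, Continuous fun α => f α n k := fun n k => (continuous_apply k).comp (hfn n)
  have hginv : ∀ α β, g α = g β → range (f α) = range (f β) := by
    intro α β h
    rw [← hf, h]
  let W : ℕ → Set (ℕ → ℕ) := fun n => {α | ∀ᶠ β in 𝓝 α, f β n = f α n}
  have hWo : ∀ n, IsOpen (W n) := by
    intro n
    rw [isOpen_iff_mem_nhds]
    intro α hα
    have hα' : ∀ᶠ β in 𝓝 α, f β n = f α n := hα
    have := eventually_eventually_nhds.2 hα'
    filter_upwards [this, hα'] with γ h1 h2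
    show ∀ᶠ β in 𝓝 γ, f β n = f γ n
    filter_upwards [h1] with β h3
    rw [h3, h2]
  -- density of W n
  have hWd : ∀ n, ∀ O, IsOpen O → O.Nonempty → O ⊆ g ⁻¹' X0 → (O ∩ W n).Nonempty := by
    intro n O hO hOne hOX
    let R : Set ((ℕ → ℕ) × (ℕ → ℕ)) := {p | g p.1 = g p.2}
    have hRc : IsClosed R := isClosed_eq (hgc.comp continuous_fst) (hgc.comp continuous_snd)
    have : PolishSpace R := hRc.polishSpace
    let _ := upgradeIsCompletelyMetrizable R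
    let A : ℕ → Set R := fun m => {p | f p.1.1 n = f p.1.2 m}
    have hA : ∀ m, IsClosed (A m) := fun m => isClosed_eq
      ((hfn n).comp (continuous_fst.comp continuous_subtype_val))
      ((hfn m).comp (continuous_snd.comp continuous_subtype_val))
    have hAU : ⋃ m, A m = univ := by
      rw [eq_univ_iff_forall]
      rintro ⟨⟨α, β⟩, hp⟩
      have h3 := hginv α β hp
      have h4 : f α n ∈ range (f β) := by rw [← h3]; exact ⟨n, rfl⟩
      obtain ⟨m, hm⟩ := h4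
      exact mem_iUnion.2 ⟨m, hm.symm⟩
    have hdense := dense_iUnion_interior_of_closed hA hAU
    obtain ⟨α0, hα0⟩ := hOne
    have hOO : IsOpen {p : R | p.1.1 ∈ O ∧ p.1.2 ∈ O} :=
      (hO.preimage (continuous_fst.comp continuous_subtype_val)).inter
        (hO.preimage (continuous_snd.comp continuous_subtype_val))
    obtain ⟨p, hpO, hp⟩ := hdense.inter_open_nonempty _ hOO ⟨⟨(α0, α0), rfl⟩, hα0, hα0⟩
    obtain ⟨m, hm⟩ := mem_iUnion.1 hp
    obtain ⟨T, hT, hTeq⟩ := (isOpen_induced_iff.1 (isOpen_interior (s := A m)))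
    have hpT : p.1 ∈ T := by
      have : p ∈ Subtype.val ⁻¹' T := by rw [hTeq]; exact hm
      exact this
    obtain ⟨O1, O2, hO1, hO2, hp1, hp2, hO12⟩ := isOpen_prod_iff.1 hT p.1.1 p.1.2 hpT
    have hkey : ∀ α ∈ O1, ∀ β ∈ O2, g α = g β → f α n = f β m := by
      intro α hα β hβ hab
      have : (⟨(α, β), hab⟩ : R) ∈ Subtype.val ⁻¹' T := hO12 ⟨hα, hβ⟩
      rw [hTeq] at this
      have h5 : (⟨(α, β), hab⟩ : R) ∈ A m := interior_subset this
      exact h5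
    let U : Set X := g '' (O1 ∩ O) ∩ g '' O2
    have hUo : IsOpen U := (hgo _ (hO1.inter hO)).inter (hgo _ hO2)
    have hxU : g p.1.1 ∈ U := ⟨⟨_, ⟨hp1, hpO.1⟩, rfl⟩, ⟨p.1.2, hp2, p.2.symm⟩⟩
    obtain ⟨U1, hU1U, hU1o, hxU1, hU1c⟩ :=
      locallyConnectedSpace_iff_subsets_isOpen_isConnected.1 ‹_› (g p.1.1) U (hUo.mem_nhds hxU)
    have hconst : ∀ α ∈ O1 ∩ O, ∀ α' ∈ O1 ∩ O, g α ∈ U1 → g α' ∈ U1 → f α n = f α' n := by
      intro α hα α' hα' hg hg'
      by_contra hne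
      obtain ⟨k, hk⟩ := Function.ne_iff.1 hne
      have hdisj : ∀ γ ∈ O1 ∩ O, ∀ γ' ∈ O1 ∩ O, g γ = g γ' → g γ ∈ U → f γ n = f γ' n := by
        intro γ hγ γ' hγ' h hU
        obtain ⟨β, hβ, hβ'⟩ := hU.2
        rw [hkey γ hγ.1 β hβ hβ'.symm, hkey γ' hγ'.1 β hβ (by rw [← h, hβ'])]
      have ho1 : IsOpen (g '' ((O1 ∩ O) ∩ {γ | f γ n k = f α n k})) := by
        apply hgo
        exact (hO1.inter hO).inter ((isOpen_discrete {f α n k}).preimage (hfnk n k))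
      have ho2 : IsOpen (g '' ((O1 ∩ O) ∩ {γ | f γ n k ≠ f α n k})) := by
        apply hgo
        exact (hO1.inter hO).inter ((isOpen_discrete {f α n k}ᶜ).preimage (hfnk n k))
      have hcon := hU1c.isPreconnected _ _ ho1 ho2 (by
        intro x hx
        obtain ⟨γ, hγ, rfl⟩ := (hU1U hx).1
        by_cases h : f γ n k = f α n k
        · exact Or.inl ⟨γ, ⟨hγ, h⟩, rfl⟩
        · exact Or.inr ⟨γ, ⟨hγ, h⟩, rfl⟩)
        ⟨g α, hg, ⟨α, ⟨hα, rfl⟩, rfl⟩⟩ ⟨g α', hg', ⟨α', ⟨hα', fun h => hk h.symm⟩, rfl⟩⟩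
      obtain ⟨x, hxU1, ⟨γ, ⟨hγ, hγk⟩, hγx⟩, ⟨γ', ⟨hγ', hγk'⟩, hγx'⟩⟩ := hcon
      have := hdisj γ hγ γ' hγ' (by rw [hγx, hγx']) (by rw [hγx]; exact hU1U hxU1)
      apply hγk'
      show f γ' n k = f α n k
      rw [← this]
      exact hγk
    refine ⟨p.1.1, hpO.1, ?_⟩
    show ∀ᶠ β in 𝓝 p.1.1, f β n = f p.1.1 n
    have hnb : (O1 ∩ O) ∩ g ⁻¹' U1 ∈ 𝓝 p.1.1 :=
      ((hO1.inter hO).inter (hU1o.preimage hgc)).mem_nhds ⟨⟨hp1, hpO.1⟩, hxU1⟩
    filter_upwards [hnb] with β hβ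
    exact hconst β hβ.1 _ ⟨hp1, hpO.1⟩ hβ.2 hxU1
  -- countable set of values
  let r : ℕ × ℕ → (ℕ → ℕ) := fun jm => f (denseSeq (ℕ → ℕ) jm.1) jm.2
  have hr : ∀ n, ∀ α ∈ W n, ∃ jm, r jm = f α n := by
    intro n α hα
    have hα' : {β | f β n = f α n} ∈ 𝓝 α := hα
    obtain ⟨O, hOs, hO, hαO⟩ := mem_nhds_iff.1 hα'
    obtain ⟨β, hβO, ⟨j, hj⟩⟩ := (denseRange_denseSeq (ℕ → ℕ)).inter_open_nonempty O hO ⟨α, hαO⟩
    refine ⟨(j, n), ?_⟩
    show f (denseSeq (ℕ → ℕ) j) n = _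
    rw [hj]
    exact hOs hβO
  let P : (ℕ × ℕ) → ℕ → Set (ℕ → ℕ) := fun jm n => {α | f α n = r jm}
  have hPc : ∀ jm n, IsClosed (P jm n) := fun jm n => isClosed_eq (hfn n) continuous_const
  have hPsat : ∀ jm, ∀ α β, E (g α) (g β) → α ∈ ⋃ n, P jm n → β ∈ ⋃ n, P jm n := by
    intro jm α β hab hα
    obtain ⟨n, hn⟩ := mem_iUnion.1 hα
    have h3 := (hf α β).1 hab
    have h4 : r jm ∈ range (f β) := by rw [← h3]; exact ⟨n, hn⟩
    obtain ⟨m, hm⟩ := h4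
    exact mem_iUnion.2 ⟨m, hm⟩
  let big : ℕ × ℕ → Prop := fun jm => ∃ O, IsOpen O ∧ O.Nonempty ∧ O ⊆ g ⁻¹' X0 ∧ O ⊆ ⋃ n, P jm n
  -- the generic points
  let Γ : Set (ℕ → ℕ) := {α | α ∈ g ⁻¹' X0 ∧ (∀ n, α ∈ W n) ∧
    (∀ jm, big jm → α ∈ interior (⋃ n, P jm n)) ∧ (∀ jm, ¬ big jm → ∀ n, α ∉ P jm n)}
  have hΓ : ∀ α ∈ Γ, ∀ β ∈ Γ, range (f α) ⊆ range (f β) := by
    rintro α ⟨_, hα1, hα2, hα3⟩ β ⟨_, hβ1, hβ2, hβ3⟩
    rintro _ ⟨n, rfl⟩
    obtain ⟨jm, hjm⟩ := hr n α (hα1 n)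
    by_cases hb : big jm
    · have := interior_subset (hβ2 jm hb)
      obtain ⟨m, hm⟩ := mem_iUnion.1 this
      exact ⟨m, by rw [← hjm]; exact hm⟩
    · exact absurd hjm.symm (hα3 jm hb n)
  have hΓE : ∀ α ∈ Γ, ∀ β ∈ Γ, E (g α) (g β) := fun α hα β hβ =>
    (hf α β).2 (Subset.antisymm (hΓ α hα β hβ) (hΓ β hβ α hα))
  -- a closed set with empty interior containing g '' Γ
  obtain ⟨N, hNc, hNi, hN⟩ : ∃ N : Set X, IsClosed N ∧ interior N = ∅ ∧ ∀ α ∈ Γ, g α ∈ N := by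
    by_cases hne : Γ.Nonempty
    · obtain ⟨α, hα⟩ := hne
      obtain ⟨N, hN1, hN2, hN3⟩ := h1 (g α) hα.1
      exact ⟨N, hN1, hN2, fun β hβ => hN3 _ hβ.1 (hΓE α hα β hβ)⟩
    · exact ⟨∅, isClosed_empty, interior_empty, fun α hα => absurd ⟨α, hα⟩ hne⟩
  classical
  let C : ℕ ⊕ (ℕ × ℕ) ⊕ ((ℕ × ℕ) × ℕ) ⊕ Unit → Set (ℕ → ℕ) := fun i => match i with
    | Sum.inl n => (W n)ᶜ
    | Sum.inr (Sum.inl jm) => if big jm then (interior (⋃ n, P jm n))ᶜ else ∅
    | Sum.inr (Sum.inr (Sum.inl (jm, n))) => if big jm then ∅ else P jm n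
    | Sum.inr (Sum.inr (Sum.inr _)) => g ⁻¹' N
  have hC : ∀ i, IsClosed (C i) := by
    rintro (n | jm | ⟨jm, n⟩ | _)
    · exact (hWo n).isClosed_compl
    · by_cases hb : big jm
      · simp only [C, if_pos hb]; exact isOpen_interior.isClosed_compl
      · simp only [C, if_neg hb]; exact isClosed_empty
    · by_cases hb : big jm
      · simp only [C, if_pos hb]; exact isClosed_empty
      · simp only [C, if_neg hb]; exact hPc jm n
    · exact hNc.preimage hgc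
  have hcov : g ⁻¹' X0 ⊆ ⋃ i, C i := by
    intro α hα
    by_contra hnot
    simp only [mem_iUnion, not_exists] at hnot
    apply hnot (Sum.inr (Sum.inr (Sum.inr ())))
    apply hN
    refine ⟨hα, fun n => ?_, fun jm hb => ?_, fun jm hb n hn => ?_⟩
    · by_contra h
      exact hnot (Sum.inl n) h
    · by_contra h
      apply hnot (Sum.inr (Sum.inl jm))
      simp only [C, if_pos hb]
      exact h
    · apply hnot (Sum.inr (Sum.inr (Sum.inl (jm, n))))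
      simp only [C, if_neg hb]
      exact hn
  obtain ⟨i, hi⟩ := baire_open (g ⁻¹' X0) (hX0.preimage hgc) hX0ne C hC hcov
  rcases i with n | jm | ⟨jm, n⟩ | _
  · obtain ⟨γ, hγ, hγW⟩ := hWd n _ (isOpen_interior.inter (hX0.preimage hgc)) hi
      inter_subset_right
    exact (interior_subset hγ.1) hγW
  · by_cases hb : big jm
    · obtain ⟨O, hO, hOne, hOX, hOP⟩ := hb
      obtain ⟨V', hV'V, hV'o, ⟨γ, hγ⟩, hV'P⟩ := h2 (P jm) (hPc jm) (hPsat jm) O hO hOne hOX hOP _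
        (isOpen_interior.inter (hX0.preimage hgc)) hi inter_subset_right
      have hb : big jm := ⟨O, hO, hOne, hOX, hOP⟩
      have h5 := interior_subset (hV'V hγ).1
      simp only [C, if_pos hb] at h5
      exact h5 (interior_maximal hV'P hV'o hγ)
    · simp only [C, if_neg hb] at hi
      simp at hi
  · by_cases hb : big jm
    · simp only [C, if_pos hb] at hi
      simp at hi
    · simp only [C, if_neg hb] at hi
      apply hb
      refine ⟨_, isOpen_interior.inter (hX0.preimage hgc), hi, inter_subset_right, ?_⟩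
      exact inter_subset_left.trans (interior_subset.trans (subset_iUnion (P jm) n))
  · simp only [C] at hi
    obtain ⟨γ, hγ, _⟩ := hi
    have : g γ ∈ interior N := by
      refine interior_maximal ?_ (hgo _ isOpen_interior) ⟨γ, hγ, rfl⟩
      rintro _ ⟨δ, hδ, rfl⟩
      have h6 : δ ∈ g ⁻¹' N := interior_subset hδ
      exact h6
    rw [hNi] at this
    exact this

end Pool.Agent.MP_b0da28_lc
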