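import Mathlib

open Set Topology TopologicalSpace Filter

namespace Pool.Agent.MP_b0da28_lc

/-- The space of double sequences of reals. -/
abbrev F : Type := ℕ → ℕ → ℝ

/-- The ambient Polish space. -/
abbrev X : Type := ℕ × ℝ × F

/-- An injection of the rationals into the integers at most `-2`. -/
noncomputable def kap (q : ℚ) : ℝ := -((Encodable.encode q : ℝ) + 2)

theorem kap_le (q : ℚ) : kap q ≤ -2 := by
  unfold kap
  have : (0 : ℝ) ≤ (Encodable.encode q : ℝ) := Nat.cast_nonneg _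
  linarith

theorem kap_dist {q q' : ℚ} (h : |kap q - kap q'| < 1) : q = q' := by
  unfold kap at h
  apply Encodable.encode_injective
  have h1 : |((Encodable.encode q' : ℤ) : ℝ) - ((Encodable.encode q : ℤ) : ℝ)| < 1 := by
    push_cast
    convert h using 2
    ring
  have h2 : |((Encodable.encode q' : ℤ) - (Encodable.encode q : ℤ))| < 1 := by
    exact_mod_cast h1
  rw [Int.abs_lt_one_iff] at h2
  omega

/-- An enumeration of the rationals. -/
noncomputable def qs : ℕ → ℚ := (exists_surjective_nat ℚ).choose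

theorem qs_surj : Function.Surjective qs := (exists_surjective_nat ℚ).choose_spec

/-- The centres used in the construction. -/
noncomputable def ab (i : ℕ) : F × F := denseSeq (F × F) (Nat.unpair i).1

/-- The closed box attached to `i`. -/
def Box (i : ℕ) : Set F :=
  {y | (∀ l < i, ∀ j < i, |y l j - (ab i).2 l j| ≤ 1 / ((i : ℝ) + 1)) ∧ |y i 0| ≤ 1 / 4}

/-- Translation by `t` in the coordinate `(i, 0)`. -/
noncomputable def sh (i : ℕ) (t : ℝ) (y : F) : F :=
  fun l j => if l = i ∧ j = 0 then y l j + t else y l j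

/-- The embedding of (irrationals) × F. -/
noncomputable def mm (i : ℕ) (c : ℝ) (y : F) : F := fun l j =>
  if l < i then (ab i).1 l j
  else if l = i then -1
  else if j = 0 then 1 / |c - (qs (l - i - 1) : ℝ)| else y (l - i - 1) (j - 1)

open Classical in
/-- The gluing map. -/
noncomputable def ee (i : ℕ) (c : ℝ) (y : F) : F :=
  if h : ∃ q : ℚ, (q : ℝ) = c then sh i (kap h.choose) y else mm i c y

open Classical in
/-- The complete invariant. -/
noncomputable def inv : X → X := fun p =>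
  match p with
  | (0, _, y) => (0, 0, y)
  | (i + 1, c, y) => if y ∈ Box i then (0, 0, ee i c y) else (i + 1, c, y)

theorem ee_rat (i : ℕ) (q : ℚ) (y : F) : ee i q y = sh i (kap q) y := by
  have h : ∃ q' : ℚ, (q' : ℝ) = q := ⟨q, rfl⟩
  unfold ee
  rw [dif_pos h]
  have : h.choose = q := by exact_mod_cast h.choose_spec
  rw [this]

theorem ee_irrat (i : ℕ) (c : ℝ) (hc : ¬ ∃ q : ℚ, (q : ℝ) = c) (y : F) : ee i c y = mm i c y := by
  unfold ee
  rw [dif_neg hc]

/-- rational part of the graph -/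
def Krat (i : ℕ) : Set (F × ℝ × F) := {p | p.2.2 ∈ Box i ∧ ∃ q : ℚ, p.2.1 = q ∧ p.1 = sh i (kap q) p.2.2}

/-- irrational part of the graph -/
def Kirr (i : ℕ) : Set (F × ℝ × F) := {p | p.2.2 ∈ Box i ∧ (∀ l < i, ∀ j, p.1 l j = (ab i).1 l j) ∧
  (∀ j, p.1 i j = -1) ∧ (∀ k, p.1 (i + 1 + k) 0 * |p.2.1 - (qs k : ℝ)| = 1) ∧
  (∀ k j, p.1 (i + 1 + k) (j + 1) = p.2.2 k j)}

theorem mem_Kirr_iff (i : ℕ) (x : F) (c : ℝ) (y : F) :
    (x, c, y) ∈ Kirr i ↔ y ∈ Box i ∧ (¬ ∃ q : ℚ, (q : ℝ) = c) ∧ x = mm i c y := by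
  constructor
  · rintro ⟨h1, h2, h3, h4, h5⟩
    simp only at h1 h2 h3 h4 h5
    have hc : ¬ ∃ q : ℚ, (q : ℝ) = c := by
      rintro ⟨q, rfl⟩
      obtain ⟨k, hk⟩ := qs_surj q
      have := h4 k
      rw [hk] at this
      simp at this
    refine ⟨h1, hc, ?_⟩
    funext l j
    unfold mm
    split_ifs with h6 h7 h8
    · exact h2 l h6 j
    · rw [h7]; exact h3 j
    · obtain ⟨k, rfl⟩ : ∃ k, l = i + 1 + k := ⟨l - i - 1, by omega⟩
      have h9 : i + 1 + k - i - 1 = k := by omega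
      rw [h8, h9]
      rw [eq_div_iff, h4 k]
      intro h10
      have := h4 k
      rw [h10] at this
      simp at this
    · obtain ⟨k, rfl⟩ : ∃ k, l = i + 1 + k := ⟨l - i - 1, by omega⟩
      obtain ⟨j, rfl⟩ : ∃ j', j = j' + 1 := ⟨j - 1, by omega⟩
      have h9 : i + 1 + k - i - 1 = k := by omega
      rw [h9, h5 k j]
      simp
  · rintro ⟨h1, hc, rfl⟩
    refine ⟨h1, fun l hl j => ?_, fun j => ?_, fun k => ?_, fun k j => ?_⟩
    · simp only [mm, if_pos hl]
    · simp [mm]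
    · have h9 : i + 1 + k - i - 1 = k := by omega
      simp only [mm]
      rw [if_neg (by omega), if_neg (by omega), if_pos trivial, h9]
      rw [one_div_mul_cancel]
      intro h10
      rw [abs_eq_zero, sub_eq_zero] at h10
      exact hc ⟨_, h10.symm⟩
    · have h9 : i + 1 + k - i - 1 = k := by omega
      simp only [mm]
      rw [if_neg (by omega), if_neg (by omega), if_neg (by omega), h9]
      simp

theorem graph_iff (i : ℕ) (x : F) (c : ℝ) (y : F) :
    (y ∈ Box i ∧ x = ee i c y) ↔ (x, c, y) ∈ Krat i ∪ Kirr i := by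
  by_cases hc : ∃ q : ℚ, (q : ℝ) = c
  · obtain ⟨q, rfl⟩ := hc
    constructor
    · rintro ⟨h1, h2⟩
      left
      exact ⟨h1, q, rfl, by rw [h2, ee_rat]⟩
    · rintro (⟨h1, q', h2, h3⟩ | h)
      · refine ⟨h1, ?_⟩
        have h2' : (q : ℝ) = q' := h2
        have : q = q' := by exact_mod_cast h2'
        subst this
        rw [ee_rat]; exact h3
      · rw [mem_Kirr_iff] at h
        exact absurd ⟨q, rfl⟩ h.2.1
  · constructor
    · rintro ⟨h1, h2⟩
      right
      rw [mem_Kirr_iff]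
      exact ⟨h1, hc, by rw [h2, ee_irrat i c hc]⟩
    · rintro (⟨h1, q', h2, h3⟩ | h)
      · exact absurd ⟨q', h2.symm⟩ hc
      · rw [mem_Kirr_iff] at h
        exact ⟨h.1, by rw [ee_irrat i c hc]; exact h.2.2⟩

/-- graph of `kap` -/
def Gr : Set (ℝ × ℝ) := {p | ∃ q : ℚ, p.1 = kap q ∧ p.2 = q}

theorem Gr_closed : IsClosed Gr := by
  apply Metric.isClosed_of_pairwise_le_dist (ε := 1) one_pos
  rintro ⟨t, c⟩ ⟨q, h1, h2⟩ ⟨t', c'⟩ ⟨q', h1', h2'⟩ hne
  simp only at h1 h2 h1' h2'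
  subst h1 h2 h1' h2'
  by_contra hlt
  apply hne
  have : q = q' := by
    apply kap_dist
    rw [← Real.dist_eq]
    refine lt_of_le_of_lt ?_ (not_le.1 hlt)
    exact le_max_left _ _
  rw [this]

theorem Box_closed (i : ℕ) : IsClosed (Box i) := by
  have : Box i = (⋂ l, ⋂ (_ : l < i), ⋂ j, ⋂ (_ : j < i),
      {y : F | |y l j - (ab i).2 l j| ≤ 1 / ((i : ℝ) + 1)}) ∩ {y : F | |y i 0| ≤ 1 / 4} := by
    ext y
    simp [Box]
  rw [this]
  refine IsClosed.inter ?_ (isClosed_le (by fun_prop) continuous_const)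
  refine isClosed_iInter fun l => isClosed_iInter fun _ => isClosed_iInter fun j =>
    isClosed_iInter fun _ => isClosed_le (by fun_prop) continuous_const

theorem sh_continuous (i : ℕ) : Continuous fun p : ℝ × F => sh i p.1 p.2 := by
  refine continuous_pi fun l => continuous_pi fun j => ?_
  unfold sh
  by_cases h : l = i ∧ j = 0
  · simp only [if_pos h]; fun_prop
  · simp only [if_neg h]; fun_prop

theorem Kirr_closed (i : ℕ) : IsClosed (Kirr i) := by
  have : Kirr i = ((fun p : F × ℝ × F => p.2.2) ⁻¹' Box i) ∩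
      ((⋂ l, ⋂ (_ : l < i), ⋂ j, {p : F × ℝ × F | p.1 l j = (ab i).1 l j}) ∩
      ((⋂ j, {p : F × ℝ × F | p.1 i j = -1}) ∩
      ((⋂ k, {p : F × ℝ × F | p.1 (i + 1 + k) 0 * |p.2.1 - (qs k : ℝ)| = 1}) ∩
      (⋂ k, ⋂ j, {p : F × ℝ × F | p.1 (i + 1 + k) (j + 1) = p.2.2 k j})))) := by
    ext ⟨x, c, y⟩
    simp [Kirr]
  rw [this]
  refine ((Box_closed i).preimage (by fun_prop)).inter (IsClosed.inter ?_ (IsClosed.inter ?_
    (IsClosed.inter ?_ ?_)))
  · exact isClosed_iInter fun l => isClosed_iInter fun _ => isClosed_iInter fun j =>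
      isClosed_eq (by fun_prop) (by fun_prop)
  · exact isClosed_iInter fun j => isClosed_eq (by fun_prop) (by fun_prop)
  · exact isClosed_iInter fun j => isClosed_eq (by fun_prop) (by fun_prop)
  · exact isClosed_iInter fun j => isClosed_iInter fun j => isClosed_eq (by fun_prop) (by fun_prop)

theorem sh_apply_self (i : ℕ) (t : ℝ) (y : F) : sh i t y i 0 = y i 0 + t := by
  simp [sh]

theorem sh_apply_ne (i : ℕ) (t : ℝ) (y : F) (l j : ℕ) (h : l ≠ i) : sh i t y l j = y l j := by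
  simp [sh, h]

theorem Krat_closed (i : ℕ) : IsClosed (Krat i) := by
  have : Krat i = ((fun p : F × ℝ × F => p.2.2) ⁻¹' Box i) ∩
      (((fun p : F × ℝ × F => (p.1 i 0 - p.2.2 i 0, p.2.1)) ⁻¹' Gr) ∩
      {p : F × ℝ × F | p.1 = sh i (p.1 i 0 - p.2.2 i 0) p.2.2}) := by
    ext ⟨x, c, y⟩
    constructor
    · rintro ⟨h1, q, h2, h3⟩
      simp only at h1 h2 h3
      have h4 : x i 0 - y i 0 = kap q := by rw [h3, sh_apply_self]; ring
      refine ⟨h1, ⟨q, h4, h2⟩, ?_⟩
      show x = sh i (x i 0 - y i 0) y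
      rw [h4]; exact h3
    · rintro ⟨h1, ⟨q, h2, h3⟩, h4⟩
      refine ⟨h1, q, h3, ?_⟩
      have h4' : x = sh i (x i 0 - y i 0) y := h4
      have h2' : x i 0 - y i 0 = kap q := h2
      show x = sh i (kap q) y
      rw [← h2']; exact h4'
  rw [this]
  refine ((Box_closed i).preimage (by fun_prop)).inter (IsClosed.inter
    (Gr_closed.preimage (by fun_prop)) (isClosed_eq (by fun_prop) ?_))
  exact (sh_continuous i).comp (by fun_prop : Continuous fun p : F × ℝ × F =>
    ((p.1 i 0 - p.2.2 i 0, p.2.2) : ℝ × F))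

theorem K_closed (i : ℕ) : IsClosed (Krat i ∪ Kirr i) := (Krat_closed i).union (Kirr_closed i)

/-- The set of pairs identified through `F`, for different indices. -/
def LL (i i' : ℕ) : Set ((ℝ × F) × (ℝ × F)) :=
  {p | ∃ x, (x, p.1) ∈ Krat i ∪ Kirr i ∧ (x, p.2) ∈ Krat i' ∪ Kirr i'}

theorem LL_closed (i i' : ℕ) (hii : i < i') : IsClosed (LL i i') := by
  have hne : i ≠ i' := hii.ne
  have : LL i i' =
      {p : (ℝ × F) × (ℝ × F) | p.1.2 ∈ Box i ∧ ((ab i').1 i 0 - p.1.2 i 0, p.1.1) ∈ Gr ∧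
        (sh i ((ab i').1 i 0 - p.1.2 i 0) p.1.2, p.2) ∈ Kirr i'} ∪
      {p : (ℝ × F) × (ℝ × F) | p.1.2 ∈ Box i ∧ (p.2.2 i 0 - p.1.2 i 0, p.1.1) ∈ Gr ∧
        (sh i (p.2.2 i 0 - p.1.2 i 0) p.1.2, p.2) ∈ Krat i'} := by
    ext ⟨⟨c, y⟩, ⟨c', y'⟩⟩
    constructor
    · rintro ⟨x, hx1, hx2⟩
      rcases hx1 with ⟨h1, q, h2, h3⟩ | ⟨h1, h2, h3, h4, h5⟩
      · simp only at h1 h2 h3
        rcases hx2 with hx2 | hx2
        · right
          obtain ⟨h1', q', h2', h3'⟩ := hx2
          simp only at h1' h2' h3'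
          have h6 : y' i 0 - y i 0 = kap q := by
            have h7 : x i 0 = y i 0 + kap q := by rw [h3, sh_apply_self]
            have h8 : x i 0 = y' i 0 := by rw [h3', sh_apply_ne _ _ _ _ _ hne]
            linarith
          refine ⟨h1, ⟨q, h6, h2⟩, ?_⟩
          show (sh i (y' i 0 - y i 0) y, c', y') ∈ Krat i'
          rw [h6, ← h3]
          exact ⟨h1', q', h2', h3'⟩
        · left
          have h6 : (ab i').1 i 0 - y i 0 = kap q := by
            have h7 : x i 0 = y i 0 + kap q := by rw [h3, sh_apply_self]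
            have h8 : x i 0 = (ab i').1 i 0 := hx2.2.1 i hii 0
            linarith
          refine ⟨h1, ⟨q, h6, h2⟩, ?_⟩
          show (sh i ((ab i').1 i 0 - y i 0) y, c', y') ∈ Kirr i'
          rw [h6, ← h3]
          exact hx2
      · exfalso
        simp only at h1 h2 h3 h4 h5
        have h6 : 0 < x i' 0 := by
          obtain ⟨k, rfl⟩ : ∃ k, i' = i + 1 + k := ⟨i' - i - 1, by omega⟩
          have h7 := h4 k
          by_contra hcon
          have h8 : x (i + 1 + k) 0 * |c - (qs k : ℝ)| ≤ 0 :=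
            mul_nonpos_of_nonpos_of_nonneg (not_lt.1 hcon) (abs_nonneg _)
          linarith
        rcases hx2 with ⟨h1', q', h2', h3'⟩ | hx2
        · simp only at h1' h2' h3'
          have h7 : x i' 0 = y' i' 0 + kap q' := by rw [h3', sh_apply_self]
          have h8 := kap_le q'
          have h9 := (abs_le.1 h1'.2).2
          linarith
        · have h7 := hx2.2.2.1 0
          simp only at h7
          linarith
    · rintro (⟨h1, ⟨q, h2, h3⟩, h4⟩ | ⟨h1, ⟨q, h2, h3⟩, h4⟩)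
      · have h2' : (ab i').1 i 0 - y i 0 = kap q := h2
        have h4' : (sh i ((ab i').1 i 0 - y i 0) y, c', y') ∈ Kirr i' := h4
        rw [h2'] at h4'
        exact ⟨sh i (kap q) y, Or.inl ⟨h1, q, h3, rfl⟩, Or.inr h4'⟩
      · have h2' : y' i 0 - y i 0 = kap q := h2
        have h4' : (sh i (y' i 0 - y i 0) y, c', y') ∈ Krat i' := h4
        rw [h2'] at h4'
        exact ⟨sh i (kap q) y, Or.inl ⟨h1, q, h3, rfl⟩, Or.inl h4'⟩
  rw [this]
  refine IsClosed.union ?_ ?_
  · refine IsClosed.inter ((Box_closed i).preimage (by fun_prop)) (IsClosed.inter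
      (Gr_closed.preimage (f := fun p : (ℝ × F) × (ℝ × F) => ((ab i').1 i 0 - p.1.2 i 0, p.1.1))
        (by fun_prop))
      ((Kirr_closed i').preimage (f := fun p : (ℝ × F) × (ℝ × F) =>
        (sh i ((ab i').1 i 0 - p.1.2 i 0) p.1.2, p.2)) ?_))
    refine Continuous.prodMk ?_ (by fun_prop)
    exact (sh_continuous i).comp (by fun_prop : Continuous fun p : (ℝ × F) × (ℝ × F) =>
      (((ab i').1 i 0 - p.1.2 i 0, p.1.2) : ℝ × F))
  · refine IsClosed.inter ((Box_closed i).preimage (by fun_prop)) (IsClosed.inter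
      (Gr_closed.preimage (f := fun p : (ℝ × F) × (ℝ × F) => (p.2.2 i 0 - p.1.2 i 0, p.1.1))
        (by fun_prop))
      ((Krat_closed i').preimage (f := fun p : (ℝ × F) × (ℝ × F) =>
        (sh i (p.2.2 i 0 - p.1.2 i 0) p.1.2, p.2)) ?_))
    refine Continuous.prodMk ?_ (by fun_prop)
    exact (sh_continuous i).comp (by fun_prop : Continuous fun p : (ℝ × F) × (ℝ × F) =>
      ((p.2.2 i 0 - p.1.2 i 0, p.1.2) : ℝ × F))

end Pool.Agent.MP_b0da28_lc
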