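import Mathlib

open Set Topology TopologicalSpace Filter

namespace Pool.Agent.MP_b0da28_lc

/-- Splitting a nonempty open set into countably many small open pieces. -/
theorem split_open {X : Type*} [MetricSpace X] [SecondCountableTopology X] (U : Set X)
    (hU : IsOpen U) (hne : U.Nonempty) (ε : ENNReal) (hε : 0 < ε) :
    ∃ s : ℕ → Set X, (∀ k, IsOpen (s k) ∧ (s k).Nonempty ∧ closure (s k) ⊆ U ∧
      Metric.ediam (s k) ≤ ε) ∧ ⋃ k, s k = U := by
  have h1 : ∀ x : U, ∃ r : ℝ, 0 < r ∧ Metric.closedBall (x : X) r ⊆ U ∧ ENNReal.ofReal (2 * r) ≤ ε := by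
    intro x
    obtain ⟨r1, hr1, h1⟩ := Metric.isOpen_iff.1 hU x x.2
    obtain ⟨δ, hδ, h2⟩ : ∃ δ : ℝ, 0 < δ ∧ ENNReal.ofReal δ ≤ ε := by
      rcases eq_or_ne ε ⊤ with h | h
      · exact ⟨1, one_pos, by rw [h]; exact le_top⟩
      · refine ⟨ε.toReal, ENNReal.toReal_pos hε.ne' h, by rw [ENNReal.ofReal_toReal h]⟩
    refine ⟨min (r1 / 2) (δ / 2), by positivity, ?_, ?_⟩
    · refine (Metric.closedBall_subset_ball ?_).trans h1
      exact (min_le_left _ _).trans_lt (by linarith)
    · refine le_trans (ENNReal.ofReal_le_ofReal ?_) h2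
      have := min_le_right (r1 / 2) (δ / 2)
      linarith
  choose r hr hrU hrε using h1
  obtain ⟨T, hTc, hT⟩ := isOpen_iUnion_countable (fun x : U => Metric.ball (x : X) (r x))
    (fun x => Metric.isOpen_ball)
  have hcov : ⋃ x : U, Metric.ball (x : X) (r x) = U := by
    apply Subset.antisymm
    · exact iUnion_subset fun x => Metric.ball_subset_closedBall.trans (hrU x)
    · intro x hx
      exact mem_iUnion.2 ⟨⟨x, hx⟩, Metric.mem_ball_self (hr _)⟩
  rw [hcov] at hT
  have hTne : T.Nonempty := by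
    obtain ⟨x, hx⟩ := hne
    rw [← hT] at hx
    simp only [mem_iUnion] at hx
    obtain ⟨y, hy, _⟩ := hx
    exact ⟨y, hy⟩
  obtain ⟨e, he⟩ := hTc.exists_eq_range hTne
  refine ⟨fun k => Metric.ball (e k : X) (r (e k)), fun k => ⟨Metric.isOpen_ball,
    ⟨_, Metric.mem_ball_self (hr _)⟩, Metric.closure_ball_subset_closedBall.trans (hrU _), ?_⟩, ?_⟩
  · refine le_trans ?_ (hrε (e k))
    refine Metric.ediam_le_of_forall_dist_le ?_
    intro x hx y hy
    rw [Metric.mem_ball] at hx hy
    have := dist_triangle_right x y (e k : X)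
    linarith
  · conv_rhs => rw [← hT, he]
    simp only [mem_range, iUnion_exists, iUnion_iUnion_eq']

/-- Every nonempty Polish space is a continuous open image of the Baire space. -/
theorem exists_open_surj (X : Type*) [TopologicalSpace X] [PolishSpace X] [Nonempty X] :
    ∃ g : (ℕ → ℕ) → X, Continuous g ∧ IsOpenMap g ∧ Function.Surjective g := by
  let _ := upgradeIsCompletelyMetrizable X
  have hsplit : ∀ (n : ℕ) (U : {U : Set X // IsOpen U ∧ U.Nonempty}),
      ∃ s : ℕ → {U : Set X // IsOpen U ∧ U.Nonempty}, (∀ k, closure (s k : Set X) ⊆ U ∧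
      Metric.ediam (s k : Set X) ≤ ((n : ENNReal) + 1)⁻¹) ∧ ⋃ k, (s k : Set X) = U := by
    intro n U
    obtain ⟨s, hs, hU⟩ := split_open (U : Set X) U.2.1 U.2.2 (((n : ENNReal) + 1)⁻¹)
      (by simp)
    exact ⟨fun k => ⟨s k, (hs k).1, (hs k).2.1⟩, fun k => ⟨(hs k).2.2.1, (hs k).2.2.2⟩, hU⟩
  choose step hstep hcov using hsplit
  let A' : List ℕ → {U : Set X // IsOpen U ∧ U.Nonempty} := fun l =>
    List.rec ⟨univ, isOpen_univ, univ_nonempty⟩ (fun k l' ih => step l'.length ih k) l
  have hA'nil : (A' [] : Set X) = univ := rfl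
  have hA'cons : ∀ k l, A' (k :: l) = step l.length (A' l) k := fun k l => rfl
  let A : List ℕ → Set X := fun l => (A' l).1
  have hAopen : ∀ l, IsOpen (A l) := fun l => (A' l).2.1
  have hAne : ∀ l, (A l).Nonempty := fun l => (A' l).2.2
  have hanti : CantorScheme.ClosureAntitone A := by
    intro l k
    exact (hstep l.length (A' l) k).1
  have hcovA : ∀ l, ∀ x ∈ A l, ∃ k, x ∈ A (k :: l) := by
    intro l x hx
    have : x ∈ ⋃ k, (step l.length (A' l) k : Set X) := by
      rw [hcov]; exact hx
    exact mem_iUnion.1 this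
  have hdiam : CantorScheme.VanishingDiam A := by
    intro x
    rw [← tendsto_add_atTop_iff_nat 1]
    refine tendsto_of_tendsto_of_tendsto_of_le_of_le tendsto_const_nhds
      (h := fun n : ℕ => ((n : ENNReal) + 1)⁻¹) ?_ (fun n => zero_le) ?_
    · have := ENNReal.tendsto_inv_nat_nhds_zero
      have := (tendsto_add_atTop_iff_nat 1).2 this
      simpa using this
    · intro n
      have := (hstep n (A' (PiNat.res x n)) (x n)).2
      show Metric.ediam (A (PiNat.res x (n + 1))) ≤ _
      rw [PiNat.res_succ]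
      show Metric.ediam (step (PiNat.res x n).length (A' (PiNat.res x n)) (x n) : Set X) ≤ _
      rw [PiNat.res_length]
      exact this
  have hdom : (CantorScheme.inducedMap A).1 = univ :=
    CantorScheme.ClosureAntitone.map_of_vanishingDiam hdiam hanti hAne
  have hmem : ∀ x, x ∈ (CantorScheme.inducedMap A).1 := fun x => by rw [hdom]; trivial
  let g : (ℕ → ℕ) → X := fun x => (CantorScheme.inducedMap A).2 ⟨x, hmem x⟩
  have hgc : Continuous g := by
    exact (CantorScheme.VanishingDiam.map_continuous hdiam).comp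
      (continuous_id.subtype_mk hmem)
  have hgmem : ∀ x n, g x ∈ A (PiNat.res x n) := fun x n =>
    CantorScheme.map_mem (A := A) ⟨x, hmem x⟩ n
  -- lifting points
  have hlift : ∀ (α : ℕ → ℕ) (n : ℕ) (x : X), x ∈ A (PiNat.res α n) →
      ∃ β : ℕ → ℕ, PiNat.res β n = PiNat.res α n ∧ g β = x := by
    intro α n x hx
    classical
    let f : List ℕ → ℕ := fun l => if h : x ∈ A l then (hcovA l x h).choose else 0
    have hf : ∀ l, x ∈ A l → x ∈ A (f l :: l) := by
      intro l hl
      simp only [f, dif_pos hl]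
      exact (hcovA l x hl).choose_spec
    let R : ℕ → List ℕ := fun i => Nat.rec [] (fun i l => (if i < n then α i else f l) :: l) i
    have hR0 : R 0 = [] := rfl
    have hRs : ∀ i, R (i + 1) = (if i < n then α i else f (R i)) :: R i := fun i => rfl
    let β : ℕ → ℕ := fun i => if i < n then α i else f (R i)
    have hres : ∀ i, PiNat.res β i = R i := by
      intro i
      induction i with
      | zero => simp [hR0]
      | succ i ih => rw [PiNat.res_succ, hRs, ih]
    have hresα : ∀ i, i ≤ n → R i = PiNat.res α i := by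
      intro i hi
      induction i with
      | zero => simp [hR0]
      | succ i ih =>
        rw [hRs, PiNat.res_succ, ih (by omega), if_pos (by omega)]
    have hxR : ∀ i, x ∈ A (R (n + i)) := by
      intro i
      induction i with
      | zero => rw [add_zero, hresα n le_rfl]; exact hx
      | succ i ih =>
        rw [← add_assoc, hRs, if_neg (by omega)]
        exact hf _ ih
    refine ⟨β, by rw [hres, hresα n le_rfl], ?_⟩
    by_contra hne
    obtain ⟨m, hm⟩ := hdiam.dist_lt (dist (g β) x) (dist_pos.2 hne) β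
    have hmono : ∀ i j, i ≤ j → A (PiNat.res β j) ⊆ A (PiNat.res β i) := by
      intro i j hij
      induction j, hij using Nat.le_induction with
      | base => exact Subset.rfl
      | succ j hj ih =>
        rw [PiNat.res_succ]
        exact (hanti.antitone _ _).trans ih
    have h1 := hm (g β) (hgmem β m) x (hmono m (n + m) (by omega) (by rw [hres]; exact hxR m))
    exact lt_irrefl _ h1
  refine ⟨g, hgc, ?_, ?_⟩
  · rw [isOpenMap_iff_nhds_le]
    intro α s hs
    rw [mem_map] at hs
    -- find a cylinder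
    obtain ⟨n, hn⟩ : ∃ n, PiNat.cylinder α n ⊆ g ⁻¹' s := by
      have := (PiNat.isTopologicalBasis_cylinders (fun _ : ℕ => ℕ)).mem_nhds_iff.1 hs
      obtain ⟨t, ⟨y, m, rfl⟩, hα, ht⟩ := this
      refine ⟨m, ?_⟩
      rw [PiNat.mem_cylinder_iff_eq] at hα
      rw [hα]; exact ht
    refine mem_of_superset ((hAopen (PiNat.res α n)).mem_nhds (hgmem α n)) ?_
    intro x hx
    obtain ⟨β, hβ, rfl⟩ := hlift α n x hx
    apply hn
    rw [PiNat.cylinder_eq_res]
    exact hβ
  · intro x
    obtain ⟨β, _, hβ⟩ := hlift (fun _ => 0) 0 x (by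
      show x ∈ A (PiNat.res (fun _ => 0) 0)
      simp only [PiNat.res_zero]
      trivial)
    exact ⟨β, hβ⟩

end Pool.Agent.MP_b0da28_lc
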