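import Mathlib
import Pool.Agent.MP_b0da28_lc.OpenSurj
import Pool.Agent.MP_b0da28_lc.Criterion
import Pool.Agent.MP_b0da28_lc.Gluing

open Set Topology TopologicalSpace Filter

namespace Pool.Agent.MP_b0da28_lc

theorem mm_inj (i : ℕ) {c c' : ℝ} {y y' : F} (h : mm i c y = mm i c' y') : c = c' ∧ y = y' := by
  constructor
  · by_contra hne
    -- find a rational separating the absolute differences
    have habs : ∀ q : ℚ, |c - q| = |c' - q| := by
      intro q
      obtain ⟨k, hk⟩ := qs_surj q
      have h1 := congrFun (congrFun h (i + 1 + k)) 0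
      have h9 : i + 1 + k - i - 1 = k := by omega
      simp only [mm] at h1
      rw [if_neg (by omega), if_neg (by omega), if_pos trivial, if_neg (by omega),
        if_neg (by omega), if_pos trivial, h9, hk] at h1
      rw [one_div, one_div] at h1
      exact inv_injective h1
    have hsep : ∀ t : ℝ, |c - t| = |c' - t| := by
      intro t
      have hcl : IsClosed {t : ℝ | |c - t| = |c' - t|} := isClosed_eq (by fun_prop) (by fun_prop)
      have hd : DenseRange ((↑) : ℚ → ℝ) := Rat.denseRange_cast
      have : closure (range ((↑) : ℚ → ℝ)) ⊆ {t : ℝ | |c - t| = |c' - t|} := by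
        apply hcl.closure_subset_iff.2
        rintro _ ⟨q, rfl⟩
        exact habs q
      exact this (hd t)
    have h2 := hsep c
    rw [sub_self, abs_zero] at h2
    have h3 := (abs_eq_zero.1 h2.symm)
    exact hne (by linarith)
  · funext k j
    have h1 := congrFun (congrFun h (i + 1 + k)) (j + 1)
    have h9 : i + 1 + k - i - 1 = k := by omega
    simp only [mm] at h1
    rw [if_neg (by omega), if_neg (by omega), if_neg (by omega), if_neg (by omega),
      if_neg (by omega), if_neg (by omega), h9] at h1
    simpa using h1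

theorem sh_sh (i : ℕ) (t s : ℝ) (y : F) : sh i t (sh i s y) = sh i (s + t) y := by
  funext l j
  unfold sh
  split_ifs with h
  · ring
  · rfl

theorem sh_zero (i : ℕ) (y : F) : sh i 0 y = y := by
  funext l j
  unfold sh
  split_ifs with h
  · ring
  · rfl

theorem ee_inj (i : ℕ) {c c' : ℝ} {y y' : F} (hy : y ∈ Box i) (hy' : y' ∈ Box i)
    (h : ee i c y = ee i c' y') : c = c' ∧ y = y' := by
  by_cases hc : ∃ q : ℚ, (q : ℝ) = c
  · obtain ⟨q, rfl⟩ := hc
    rw [ee_rat] at h
    by_cases hc' : ∃ q : ℚ, (q : ℝ) = c'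
    · obtain ⟨q', rfl⟩ := hc'
      rw [ee_rat] at h
      have h1 := congrFun (congrFun h i) 0
      rw [sh_apply_self, sh_apply_self] at h1
      have h2 := abs_le.1 hy.2
      have h3 := abs_le.1 hy'.2
      have h4 : q = q' := by
        apply kap_dist
        rw [abs_lt]
        constructor <;> linarith [h2.1, h2.2, h3.1, h3.2]
      subst h4
      refine ⟨rfl, ?_⟩
      have h5 : sh i (-kap q) (sh i (kap q) y) = sh i (-kap q) (sh i (kap q) y') := by rw [h]
      rw [sh_sh, sh_sh, add_neg_cancel, sh_zero, sh_zero] at h5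
      exact h5
    · exfalso
      rw [ee_irrat i c' hc'] at h
      have h1 := congrFun (congrFun h i) 0
      rw [sh_apply_self] at h1
      simp only [mm, lt_irrefl, if_false, if_true] at h1
      have h2 := abs_le.1 hy.2
      have h3 := kap_le q
      linarith [h2.1, h2.2]
  · rw [ee_irrat i c hc] at h
    by_cases hc' : ∃ q : ℚ, (q : ℝ) = c'
    · exfalso
      obtain ⟨q', rfl⟩ := hc'
      rw [ee_rat] at h
      have h1 := congrFun (congrFun h i) 0
      rw [sh_apply_self] at h1
      simp only [mm, lt_irrefl, if_false, if_true] at h1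
      have h2 := abs_le.1 hy'.2
      have h3 := kap_le q'
      linarith [h2.1, h2.2]
    · rw [ee_irrat i c' hc'] at h
      exact mm_inj i h

theorem inv_zero (c : ℝ) (y : F) : inv (0, c, y) = (0, 0, y) := rfl

theorem inv_succ_of_mem (i : ℕ) (c : ℝ) {y : F} (hy : y ∈ Box i) :
    inv (i + 1, c, y) = (0, 0, ee i c y) := by
  classical
  show (if y ∈ Box i then ((0, 0, ee i c y) : X) else (i + 1, c, y)) = _
  rw [if_pos hy]

theorem inv_succ_of_not_mem (i : ℕ) (c : ℝ) {y : F} (hy : y ∉ Box i) :
    inv (i + 1, c, y) = (i + 1, c, y) := by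
  classical
  show (if y ∈ Box i then ((0, 0, ee i c y) : X) else (i + 1, c, y)) = _
  rw [if_neg hy]

/-- The sections of the relation. -/
def Sec (n n' : ℕ) : Set ((ℝ × F) × (ℝ × F)) := {p | inv (n, p.1) = inv (n', p.2)}

theorem Sec_symm (n n' : ℕ) : Sec n' n = Prod.swap ⁻¹' Sec n n' := by
  ext p
  exact eq_comm

theorem Sec_closed (n n' : ℕ) : IsClosed (Sec n n') := by
  -- the mixed case
  have hmix : ∀ i, IsClosed (Sec 0 (i + 1)) := by
    intro i
    have : Sec 0 (i + 1) = (fun p : (ℝ × F) × (ℝ × F) => (p.1.2, p.2)) ⁻¹' (Krat i ∪ Kirr i) := by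
      ext ⟨⟨c, x⟩, ⟨c', y⟩⟩
      show inv (0, c, x) = inv (i + 1, c', y) ↔ (x, c', y) ∈ Krat i ∪ Kirr i
      rw [← graph_iff, inv_zero]
      by_cases hy : y ∈ Box i
      · rw [inv_succ_of_mem i c' hy]
        simp [hy]
      · rw [inv_succ_of_not_mem i c' hy]
        simp [hy]
    rw [this]
    exact (K_closed i).preimage (by fun_prop)
  have hlt : ∀ i i', i < i' → IsClosed (Sec (i + 1) (i' + 1)) := by
    intro i i' hii
    have : Sec (i + 1) (i' + 1) = LL i i' := by
      ext ⟨⟨c, y⟩, ⟨c', y'⟩⟩
      show inv (i + 1, c, y) = inv (i' + 1, c', y') ↔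
        ∃ x, (x, c, y) ∈ Krat i ∪ Kirr i ∧ (x, c', y') ∈ Krat i' ∪ Kirr i'
      simp only [← graph_iff]
      by_cases hy : y ∈ Box i
      · rw [inv_succ_of_mem i c hy]
        by_cases hy' : y' ∈ Box i'
        · rw [inv_succ_of_mem i' c' hy']
          simp [hy, hy']
        · rw [inv_succ_of_not_mem i' c' hy']
          simp [hy, hy']
      · rw [inv_succ_of_not_mem i c hy]
        by_cases hy' : y' ∈ Box i'
        · rw [inv_succ_of_mem i' c' hy']
          simp [hy]
        · rw [inv_succ_of_not_mem i' c' hy']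
          simp [hy]
          omega
    rw [this]
    exact LL_closed i i' hii
  rcases n with _ | i
  · rcases n' with _ | i'
    · have : Sec 0 0 = {p : (ℝ × F) × (ℝ × F) | p.1.2 = p.2.2} := by
        ext ⟨⟨c, x⟩, ⟨c', y⟩⟩
        show inv (0, c, x) = inv (0, c', y) ↔ x = y
        rw [inv_zero, inv_zero]
        simp
      rw [this]
      exact isClosed_eq (by fun_prop) (by fun_prop)
    · exact hmix i'
  · rcases n' with _ | i'
    · rw [Sec_symm]
      exact (hmix i).preimage continuous_swap
    · rcases lt_trichotomy i i' with h | h | h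
      · exact hlt i i' h
      · subst h
        have : Sec (i + 1) (i + 1) = {p : (ℝ × F) × (ℝ × F) | p.1 = p.2} := by
          ext ⟨⟨c, y⟩, ⟨c', y'⟩⟩
          show inv (i + 1, c, y) = inv (i + 1, c', y') ↔ (c, y) = (c', y')
          constructor
          · intro h
            by_cases hy : y ∈ Box i
            · rw [inv_succ_of_mem i c hy] at h
              by_cases hy' : y' ∈ Box i
              · rw [inv_succ_of_mem i c' hy'] at h
                simp only [Prod.mk.injEq, true_and] at h
                obtain ⟨h1, h2⟩ := ee_inj i hy hy' h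
                rw [h1, h2]
              · rw [inv_succ_of_not_mem i c' hy'] at h
                simp at h
            · rw [inv_succ_of_not_mem i c hy] at h
              by_cases hy' : y' ∈ Box i
              · rw [inv_succ_of_mem i c' hy'] at h
                simp at h
              · rw [inv_succ_of_not_mem i c' hy'] at h
                simpa using h
          · intro h
            rw [h]
        rw [this]
        exact isClosed_eq (by fun_prop) (by fun_prop)
      · rw [Sec_symm]
        exact (hlt i' i h).preimage continuous_swap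

/-- The equivalence relation on `X`. -/
noncomputable def EX : Setoid X := Setoid.ker inv

theorem EX_iff (p p' : X) : EX p p' ↔ inv p = inv p' := Iff.rfl

theorem EX_closed : IsClosed {p : X × X | EX p.1 p.2} := by
  have : {p : X × X | EX p.1 p.2}ᶜ = ⋃ n, ⋃ n', {p : X × X | p.1.1 = n ∧ p.2.1 = n' ∧
      (p.1.2, p.2.2) ∈ (Sec n n')ᶜ} := by
    ext ⟨⟨n, p⟩, ⟨n', p'⟩⟩
    simp [Sec, EX_iff]
  rw [← isOpen_compl_iff, this]
  refine isOpen_iUnion fun n => isOpen_iUnion fun n' => ?_
  refine IsOpen.inter ?_ (IsOpen.inter ?_ ?_)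
  · exact (isOpen_discrete {n}).preimage (f := fun p : X × X => p.1.1) (by fun_prop)
  · exact (isOpen_discrete {n'}).preimage (f := fun p : X × X => p.2.1) (by fun_prop)
  · exact (Sec_closed n n').isOpen_compl.preimage (f := fun p : X × X => (p.1.2, p.2.2))
      (by fun_prop)

end Pool.Agent.MP_b0da28_lc
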