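import Mathlib
import Pool.Agent.MP_b0da28_lc.Closed

open Set Topology TopologicalSpace Filter

namespace Pool.Agent.MP_b0da28_lc

open Classical in
theorem inv_measurable : Measurable inv := by
  refine measurable_from_prod_countable_right fun n => ?_
  rcases n with _ | i
  · show Measurable fun p : ℝ × F => ((0, 0, p.2) : X)
    fun_prop
  · show Measurable fun p : ℝ × F => if p.2 ∈ Box i then ((0, 0, ee i p.1 p.2) : X)
      else (i + 1, p.1, p.2)
    refine Measurable.ite ((Box_closed i).measurableSet.preimage measurable_snd) ?_ (by fun_prop)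
    refine measurable_const.prodMk (measurable_const.prodMk ?_)
    -- measurability of `ee i`
    let ρ : ℝ → ℝ := fun c => if h : ∃ q : ℚ, (q : ℝ) = c then kap h.choose else 0
    have hρ : Measurable ρ := by
      refine Measurable.measurable_of_countable_ne (measurable_const (a := (0 : ℝ))) ?_
      refine (countable_range ((↑) : ℚ → ℝ)).mono ?_
      intro c hc
      by_contra hnot
      apply hc
      have : ¬ ∃ q : ℚ, (q : ℝ) = c := fun ⟨q, hq⟩ => hnot ⟨q, hq⟩
      simp only [ρ, dif_neg this]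
    have hset : MeasurableSet {c : ℝ | ∃ q : ℚ, (q : ℝ) = c} :=
      (countable_range ((↑) : ℚ → ℝ)).measurableSet
    have heq : (fun p : ℝ × F => ee i p.1 p.2) = fun p =>
        if p.1 ∈ {c : ℝ | ∃ q : ℚ, (q : ℝ) = c} then sh i (ρ p.1) p.2 else mm i p.1 p.2 := by
      funext p
      unfold ee
      by_cases h : ∃ q : ℚ, (q : ℝ) = p.1
      · rw [dif_pos h, if_pos (show p.1 ∈ {c : ℝ | ∃ q : ℚ, (q : ℝ) = c} from h)]
        simp only [ρ, dif_pos h]
      · rw [dif_neg h, if_neg (show ¬ (p.1 ∈ {c : ℝ | ∃ q : ℚ, (q : ℝ) = c}) from h)]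
    rw [heq]
    refine Measurable.ite (hset.preimage measurable_fst) ?_ ?_
    · exact (sh_continuous i).measurable.comp (f := fun p : ℝ × F => (ρ p.1, p.2)) (by fun_prop)
    · refine measurable_pi_lambda _ fun l => measurable_pi_lambda _ fun j => ?_
      unfold mm
      split_ifs
      · fun_prop
      · fun_prop
      · have : Measurable fun p : ℝ × F => p.1 := measurable_fst
        exact (measurable_const.div (measurable_norm.comp (this.sub measurable_const)))
      · fun_prop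

theorem sh_preimage_open (i : ℕ) (t : ℝ) (O : Set F) (hO : IsOpen O) : IsOpen {x | sh i t x ∈ O} := by
  have : Continuous fun x : F => sh i t x :=
    (sh_continuous i).comp (continuous_const.prodMk continuous_id)
  exact hO.preimage this

/-- Basic neighbourhoods in `F`. -/
theorem F_nhds (b : F) (V : Set F) (hV : V ∈ 𝓝 b) :
    ∃ N : ℕ, ∀ x : F, (∀ l < N, ∀ j < N, |x l j - b l j| ≤ 1 / ((N : ℝ) + 1)) → x ∈ V := by
  by_contra hcon
  push Not at hcon
  choose x hx hxV using hcon
  have hlim : Tendsto x atTop (𝓝 b) := by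
    rw [tendsto_pi_nhds]
    intro l
    rw [tendsto_pi_nhds]
    intro j
    rw [tendsto_iff_dist_tendsto_zero]
    refine squeeze_zero' (Eventually.of_forall fun _ => dist_nonneg) ?_
      tendsto_one_div_add_atTop_nhds_zero_nat
    filter_upwards [eventually_gt_atTop (max l j)] with N hN
    rw [Real.dist_eq]
    exact hx N l ((le_max_left _ _).trans_lt hN) j ((le_max_right _ _).trans_lt hN)
  obtain ⟨N, hN⟩ := (hlim.eventually hV).exists
  exact hxV N hN

theorem ab_dense (U V : Set F) (hU : IsOpen U) (hUne : U.Nonempty) (hV : IsOpen V)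
    (hVne : V.Nonempty) : ∃ i, (∀ x : F, (∀ l < i, x l = (ab i).1 l) → x ∈ U) ∧
      ∀ y ∈ Box i, ∀ t, sh i t y ∈ V := by
  obtain ⟨p, hp, ⟨k, hk⟩⟩ := (denseRange_denseSeq (F × F)).inter_open_nonempty (U ×ˢ V)
    (hU.prod hV) (hUne.prod hVne)
  obtain ⟨N, hN⟩ := F_nhds p.1 U (hU.mem_nhds hp.1)
  obtain ⟨M, hM⟩ := F_nhds p.2 V (hV.mem_nhds hp.2)
  have hab : ab (Nat.pair k (max N M)) = p := by
    unfold ab
    rw [Nat.unpair_pair]
    exact hk
  have hle : max N M ≤ Nat.pair k (max N M) := Nat.right_le_pair _ _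
  refine ⟨Nat.pair k (max N M), ?_, ?_⟩
  · intro x hx
    apply hN
    intro l hl j hj
    rw [hx l (by omega), hab]
    simp only [sub_self, abs_zero]
    positivity
  · intro y hy t
    apply hM
    intro l hl j hj
    have hlt : l < Nat.pair k (max N M) := by omega
    have hjt : j < Nat.pair k (max N M) := by omega
    rw [sh_apply_ne _ _ _ _ _ hlt.ne]
    have h1 := hy.1 l hlt j hjt
    rw [hab] at h1
    refine h1.trans ?_
    apply one_div_le_one_div_of_le (by positivity)
    have : (M : ℝ) ≤ (Nat.pair k (max N M) : ℝ) := by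
      exact_mod_cast (le_max_right N M).trans hle
    linarith

theorem Box_interior (i : ℕ) : (interior (Box i)).Nonempty := by
  let O : Set F := (⋂ l ∈ Finset.range i, ⋂ j ∈ Finset.range i,
      {y : F | |y l j - (ab i).2 l j| < 1 / ((i : ℝ) + 1)}) ∩ {y : F | |y i 0| < 1 / 4}
  have hO : IsOpen O := by
    refine IsOpen.inter ?_ (isOpen_lt (by fun_prop) continuous_const)
    refine isOpen_biInter_finset fun l _ => isOpen_biInter_finset fun j _ =>
      isOpen_lt (by fun_prop) continuous_const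
  have hOB : O ⊆ Box i := by
    rintro y ⟨h1, h2⟩
    refine ⟨fun l hl j hj => ?_, le_of_lt h2⟩
    simp only [mem_iInter, Finset.mem_range] at h1
    exact le_of_lt (h1 l hl j hj)
  refine ⟨fun l j => if l = i then 0 else (ab i).2 l j, interior_maximal hOB hO ⟨?_, ?_⟩⟩
  · simp only [mem_iInter, Finset.mem_range]
    intro l hl j hj
    show |(if l = i then (0 : ℝ) else (ab i).2 l j) - (ab i).2 l j| < 1 / ((i : ℝ) + 1)
    rw [if_neg hl.ne]
    simp only [sub_self, abs_zero]
    positivity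
  · show |(if i = i then (0 : ℝ) else (ab i).2 i 0)| < 1 / 4
    simp

/-- The distinguished open part. -/
def X0 : Set X := {p | p.1 = 0}

theorem X0_open : IsOpen X0 := (isOpen_discrete {0}).preimage (f := fun p : X => p.1) (by fun_prop)

theorem EX_zero_irr (i : ℕ) (c0 c : ℝ) (hc : ¬ ∃ q : ℚ, (q : ℝ) = c) {y : F} (hy : y ∈ Box i) :
    EX (0, c0, mm i c y) (i + 1, c, y) := by
  rw [EX_iff, inv_zero, inv_succ_of_mem i c hy, ee_irrat i c hc]

theorem EX_zero_rat (i : ℕ) (c0 : ℝ) (q : ℚ) {y : F} (hy : y ∈ Box i) :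
    EX (i + 1, q, y) (0, c0, sh i (kap q) y) := by
  rw [EX_iff, inv_zero, inv_succ_of_mem i q hy, ee_rat]

/-- A nonempty open set of `X` is not contained in a slice with fixed real coordinate. -/
theorem slice_interior (c : ℝ) : interior {p : X | p.2.1 = c} = ∅ := by
  rw [eq_empty_iff_forall_notMem]
  rintro ⟨n, c', y⟩ hp
  have h1 : {t : ℝ | ((n, t, y) : X) ∈ interior {p : X | p.2.1 = c}} ∈ 𝓝 c' := by
    have : Continuous fun t : ℝ => ((n, t, y) : X) := by fun_prop
    exact this.continuousAt (isOpen_interior.mem_nhds hp)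
  have h2 : {t : ℝ | ((n, t, y) : X) ∈ interior {p : X | p.2.1 = c}} ⊆ {c} := by
    intro t ht
    have h3 : ((n, t, y) : X) ∈ {p : X | p.2.1 = c} := interior_subset ht
    exact h3
  have h3 : ({c} : Set ℝ) ∈ 𝓝 c' := mem_of_superset h1 h2
  have h4 : c' ∈ interior ({c} : Set ℝ) := mem_interior_iff_mem_nhds.2 h3
  rw [interior_singleton] at h4
  exact h4

theorem class_interior (x : F) : interior {p : X | p.2.2 = x} = ∅ := by
  rw [eq_empty_iff_forall_notMem]
  rintro ⟨n, c', y⟩ hp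
  have h1 : {t : ℝ | ((n, c', sh 0 t y) : X) ∈ interior {p : X | p.2.2 = x}} ∈ 𝓝 (0 : ℝ) := by
    have : Continuous fun t : ℝ => ((n, c', sh 0 t y) : X) := by
      refine continuous_const.prodMk (continuous_const.prodMk ?_)
      exact (sh_continuous 0).comp (continuous_id.prodMk continuous_const)
    apply this.continuousAt
    apply isOpen_interior.mem_nhds
    show ((n, c', sh 0 0 y) : X) ∈ interior {p : X | p.2.2 = x}
    rw [sh_zero]
    exact hp
  have h2 : {t : ℝ | ((n, c', sh 0 t y) : X) ∈ interior {p : X | p.2.2 = x}} ⊆ {x 0 0 - y 0 0} := by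
    intro t ht
    have h5 : ((n, c', sh 0 t y) : X) ∈ {p : X | p.2.2 = x} := interior_subset ht
    have h3 : sh 0 t y = x := h5
    have h4 : y 0 0 + t = x 0 0 := by rw [← h3, sh_apply_self]
    show t = x 0 0 - y 0 0
    linarith
  have h3 : ({x 0 0 - y 0 0} : Set ℝ) ∈ 𝓝 (0 : ℝ) := mem_of_superset h1 h2
  have h4 : (0 : ℝ) ∈ interior ({x 0 0 - y 0 0} : Set ℝ) := mem_interior_iff_mem_nhds.2 h3
  rw [interior_singleton] at h4
  exact h4

theorem no_reduction (g : (ℕ → ℕ) → X) (hgc : Continuous g) (hgo : IsOpenMap g)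
    (hgs : Function.Surjective g) :
    ¬ ∃ f : (ℕ → ℕ) → (ℕ → (ℕ → ℕ)), Continuous f ∧
      ∀ α β, EX (g α) (g β) ↔ range (f α) = range (f β) := by
  apply abstract_criterion EX g hgc hgo X0 X0_open
  · obtain ⟨α, hα⟩ := hgs (0, 0, fun _ _ => 0)
    exact ⟨α, by show g α ∈ X0; rw [hα]; rfl⟩
  · rintro ⟨n, c, x⟩ hx
    have hn : n = 0 := hx
    subst hn
    refine ⟨{p : X | p.2.2 = x}, isClosed_eq (by fun_prop) continuous_const, class_interior x, ?_⟩
    rintro ⟨m, c', y⟩ hy hE
    have hm : m = 0 := hy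
    subst hm
    rw [EX_iff, inv_zero, inv_zero] at hE
    simp only [Prod.mk.injEq, true_and] at hE
    exact hE.symm
  · intro C hC hsat O hO hOne hOX hOC V hV hVne hVX
    -- the saturated set downstairs
    let Ph : Set X := {p | ∀ α, g α = p → α ∈ ⋃ n, C n}
    have hPh : ∀ p p', EX p p' → p ∈ Ph → p' ∈ Ph := by
      intro p p' hE hp α hα
      obtain ⟨β, hβ⟩ := hgs p
      exact hsat β α (by rw [hβ, hα]; exact hE) (hp β hβ)
    have himg : ∀ α ∈ ⋃ n, C n, g α ∈ Ph := by
      intro α hα β hβ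
      exact hsat α β (by rw [hβ]) hα
    have hUo := hgo O hO
    have hVo := hgo V hV
    obtain ⟨α0, hα0⟩ := hOne
    obtain ⟨β0, hβ0⟩ := hVne
    obtain ⟨c0, x0, hgα0⟩ : ∃ c0 x0, g α0 = (0, c0, x0) := by
      have h : (g α0).1 = 0 := hOX hα0
      exact ⟨(g α0).2.1, (g α0).2.2, by rw [← h]⟩
    obtain ⟨c1, x1, hgβ0⟩ : ∃ c1 x1, g β0 = (0, c1, x1) := by
      have h : (g β0).1 = 0 := hVX hβ0
      exact ⟨(g β0).2.1, (g β0).2.2, by rw [← h]⟩
    have hU' : IsOpen {x : F | ((0, c0, x) : X) ∈ g '' O} := hUo.preimage (by fun_prop)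
    have hV' : IsOpen {x : F | ((0, c1, x) : X) ∈ g '' V} := hVo.preimage (by fun_prop)
    obtain ⟨i, hi1, hi2⟩ := ab_dense _ _ hU' ⟨x0, ⟨α0, hα0, hgα0⟩⟩ hV' ⟨x1, ⟨β0, hβ0, hgβ0⟩⟩
    have hirr : ∀ c : ℝ, (¬ ∃ q : ℚ, (q : ℝ) = c) → ∀ y ∈ Box i, ((i + 1, c, y) : X) ∈ Ph := by
      intro c hc y hy
      apply hPh _ _ (EX_zero_irr i c0 c hc hy)
      have h1 : mm i c y ∈ {x : F | ((0, c0, x) : X) ∈ g '' O} := by
        apply hi1
        intro l hl
        funext j
        simp only [mm, if_pos hl]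
      obtain ⟨α, hα, hα'⟩ := h1
      rw [← hα']
      exact himg α (hOC hα)
    -- Baire category
    let G : Set (ℕ → ℕ) := g ⁻¹' {p : X | p.1 = i + 1 ∧ p.2.2 ∈ interior (Box i)}
    have hGo : IsOpen G := by
      refine IsOpen.preimage hgc ?_
      refine IsOpen.inter ((isOpen_discrete {i + 1}).preimage (f := fun p : X => p.1) (by fun_prop))
        (isOpen_interior.preimage (by fun_prop))
    have hGne : G.Nonempty := by
      obtain ⟨y, hy⟩ := Box_interior i
      obtain ⟨α, hα⟩ := hgs (i + 1, 0, y)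
      refine ⟨α, ?_⟩
      show g α ∈ {p : X | p.1 = i + 1 ∧ p.2.2 ∈ interior (Box i)}
      rw [hα]
      exact ⟨rfl, hy⟩
    let D : ℕ ⊕ ℚ → Set (ℕ → ℕ) := fun s => match s with
      | Sum.inl n => C n
      | Sum.inr q => g ⁻¹' {p : X | p.2.1 = q}
    have hD : ∀ s, IsClosed (D s) := by
      rintro (n | q)
      · exact hC n
      · exact (isClosed_eq (by fun_prop) continuous_const).preimage hgc
    have hGD : G ⊆ ⋃ s, D s := by
      rintro α ⟨h1, h2⟩
      by_cases hc : ∃ q : ℚ, (q : ℝ) = (g α).2.1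
      · obtain ⟨q, hq⟩ := hc
        exact mem_iUnion.2 ⟨Sum.inr q, hq.symm⟩
      · have h3 := hirr _ hc _ (interior_subset h2)
        have h4 : α ∈ ⋃ n, C n := by
          apply h3
          rw [← h1]
        obtain ⟨n, hn⟩ := mem_iUnion.1 h4
        exact mem_iUnion.2 ⟨Sum.inl n, hn⟩
    obtain ⟨s, hs⟩ := baire_open G hGo hGne D hD hGD
    rcases s with n | q
    · have hO2 : IsOpen (g '' (interior (C n) ∩ G)) := hgo _ (isOpen_interior.inter hGo)
      obtain ⟨γ, hγ⟩ := hs
      have hγG : (g γ).1 = i + 1 ∧ (g γ).2.2 ∈ interior (Box i) := hγ.2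
      set y2 := (g γ).2.2 with hy2
      have hopen : IsOpen {c : ℝ | ((i + 1, c, y2) : X) ∈ g '' (interior (C n) ∩ G)} :=
        hO2.preimage (by fun_prop)
      have hne : {c : ℝ | ((i + 1, c, y2) : X) ∈ g '' (interior (C n) ∩ G)}.Nonempty := by
        refine ⟨(g γ).2.1, γ, hγ, ?_⟩
        rw [← hγG.1]
      obtain ⟨_, hq, ⟨q, rfl⟩⟩ := (Rat.denseRange_cast (𝕜 := ℝ)).inter_open_nonempty _ hopen hne
      -- the new open set
      let F2 : Set F := interior (Box i) ∩ {y : F | ((i + 1, (q : ℝ), y) : X) ∈ g '' (interior (C n) ∩ G)}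
      have hF2o : IsOpen F2 := isOpen_interior.inter (hO2.preimage (by fun_prop))
      have hy2F : y2 ∈ F2 := ⟨hγG.2, hq⟩
      refine ⟨V ∩ g ⁻¹' {p : X | p.1 = 0 ∧ sh i (-kap q) p.2.2 ∈ F2}, inter_subset_left, ?_, ?_, ?_⟩
      · refine hV.inter (IsOpen.preimage hgc ?_)
        refine IsOpen.inter ((isOpen_discrete {0}).preimage (f := fun p : X => p.1) (by fun_prop))
          ((sh_preimage_open i (-kap q) F2 hF2o).preimage (f := fun p : X => p.2.2) (by fun_prop))
      · obtain ⟨β, hβV, hβ⟩ := hi2 y2 (interior_subset hγG.2) (kap q)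
        refine ⟨β, hβV, ?_⟩
        show (g β).1 = 0 ∧ sh i (-kap q) (g β).2.2 ∈ F2
        rw [hβ]
        refine ⟨rfl, ?_⟩
        show sh i (-kap q) (sh i (kap q) y2) ∈ F2
        rw [sh_sh, add_neg_cancel, sh_zero]
        exact hy2F
      · rintro β ⟨_, hβ1, hβ2⟩
        have h5 : sh i (-kap q) (g β).2.2 ∈ Box i := interior_subset hβ2.1
        obtain ⟨δ, hδ, hδ'⟩ := hβ2.2
        have h6 : ((i + 1, (q : ℝ), sh i (-kap q) (g β).2.2) : X) ∈ Ph := by
          rw [← hδ']
          exact himg δ (mem_iUnion.2 ⟨n, interior_subset hδ.1⟩)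
        have h7 := hPh _ _ (EX_zero_rat i (g β).2.1 q h5) h6
        apply h7
        rw [sh_sh, neg_add_cancel, sh_zero, ← hβ1]
    · exfalso
      obtain ⟨γ, hγ, _⟩ := hs
      have : g γ ∈ interior {p : X | p.2.1 = (q : ℝ)} := by
        refine interior_maximal ?_ (hgo _ isOpen_interior) ⟨γ, hγ, rfl⟩
        rintro _ ⟨δ, hδ, rfl⟩
        have h6 : δ ∈ g ⁻¹' {p : X | p.2.1 = q} := interior_subset hδ
        exact h6
      rw [slice_interior] at this
      exact this

end Pool.Agent.MP_b0da28_lc
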